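import Mathlib
import Pool.Agent.H.MP_9cfc50_lc.Main

set_option autoImplicit false

namespace Pool.Agent.Results.MP_9cfc50_lc.Bound

open Pool.Agent.H.MP_9cfc50_lc

theorem result (A : Type) [Fintype A] (P : Set (Rule A)) (U : Finset A)
    (hU : ∀ (n : ℕ) (c : Fin (n + 1) → A) (s : Fin (n + 1) → Bool), IsCycle P c s →
      Even (negCount s) → ∃ i, c i ∈ U) :
    {I | RegularModel P I}.encard ≤ 2 ^ U.card :=
  main P U hU

end Pool.Agent.Results.MP_9cfc50_lc.Bound
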